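import Pool.Agent.Helper53.Engel.Profile
import Pool.Agent.Helper53.Engel.CoreDefs

/-!
# Task E1: positivity in the core of the plugs
-/

set_option autoImplicit false

open Topology Real Filter
open scoped ContDiff

noncomputable section

namespace Pool.Agent.Helper53.Engel

namespace H30

lemma uh_sq_le (ξ τ : ℝ) (h : ξ ^ 2 + τ ^ 2 ≤ 11 / 10) :
    uh ξ τ ^ 2 ≤ 3 * (3 * ξ ^ 2 - 1) ^ 2 + 123 * τ ^ 2 := by
  unfold uh
  have h1 : (3 * ξ ^ 2 + τ ^ 2 - 1 + 6 * ξ * τ) ^ 2 ≤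
      3 * ((3 * ξ ^ 2 - 1) ^ 2 + (τ ^ 2) ^ 2 + (6 * ξ * τ) ^ 2) := by
    nlinarith [sq_nonneg (3 * ξ ^ 2 - 1 - τ ^ 2), sq_nonneg (3 * ξ ^ 2 - 1 - 6 * ξ * τ),
      sq_nonneg (τ ^ 2 - 6 * ξ * τ)]
  have h2 : 0 ≤ τ ^ 2 * (11 / 10 - ξ ^ 2 - τ ^ 2) :=
    mul_nonneg (sq_nonneg _) (by linarith)
  nlinarith [sq_nonneg τ, sq_nonneg (τ ^ 2)]

lemma Wq_ge (ξ τ : ℝ) (h : ξ ^ 2 + τ ^ 2 ≤ 11 / 10) :
    2 * (3 * ξ ^ 2 - 1) ^ 2 + 8 * τ ^ 2 ≤ Wq ξ τ := by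
  have hu := uh_sq_le ξ τ h
  have hu0 : 0 ≤ uh ξ τ ^ 2 := sq_nonneg _
  have hK : 4 * π ^ 2 * rr ^ 2 * ep ≤ 1 / 400 := by
    unfold rr ep
    have := Real.pi_lt_d2
    have hp := Real.pi_pos
    nlinarith
  have hK0 : 0 ≤ 4 * π ^ 2 * rr ^ 2 * ep := by
    unfold rr ep
    positivity
  have hb0 : 0 ≤ 1 - ep * (ξ ^ 2 + τ ^ 2 - 1) := by unfold ep; linarith
  have hb1 : 1 - ep * (ξ ^ 2 + τ ^ 2 - 1) ≤ 11 / 10 := by
    unfold ep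
    nlinarith [sq_nonneg ξ, sq_nonneg τ]
  have ha : -(11 / 20) ≤ ξ * τ := by nlinarith [sq_nonneg (ξ + τ)]
  have hKb : 0 ≤ 4 * π ^ 2 * rr ^ 2 * ep * (1 - ep * (ξ ^ 2 + τ ^ 2 - 1)) := mul_nonneg hK0 hb0
  have hKb1 : 4 * π ^ 2 * rr ^ 2 * ep * (1 - ep * (ξ ^ 2 + τ ^ 2 - 1)) ≤ 1 / 400 * (11 / 10) :=
    mul_le_mul hK hb1 hb0 (by norm_num)
  have hE : -(1 / 600 * uh ξ τ ^ 2) ≤
      4 * π ^ 2 * rr ^ 2 * ep * (ξ * τ) * (1 - ep * (ξ ^ 2 + τ ^ 2 - 1)) * uh ξ τ ^ 2 := by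
    have h1 : 4 * π ^ 2 * rr ^ 2 * ep * (ξ * τ) * (1 - ep * (ξ ^ 2 + τ ^ 2 - 1)) * uh ξ τ ^ 2 =
      (4 * π ^ 2 * rr ^ 2 * ep * (1 - ep * (ξ ^ 2 + τ ^ 2 - 1))) * (ξ * τ) * uh ξ τ ^ 2 := by ring
    rw [h1, ← neg_mul]
    apply mul_le_mul_of_nonneg_right _ hu0
    nlinarith
  unfold Wq
  nlinarith [sq_nonneg τ, sq_nonneg (τ ^ 2), sq_nonneg (ξ * τ), sq_nonneg (3 * ξ ^ 2 - 1)]

lemma Wq_cont : Continuous (fun p : ℝ × ℝ => Wq p.1 p.2) := by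
  unfold Wq uh
  fun_prop

lemma Bq_cont : Continuous (fun p : ℝ × ℝ => Bq p.1 p.2) := by
  have h0 : Continuous GG := GG_contDiff.continuous
  have h1' : ContDiff ℝ ∞ (deriv GG) := (contDiff_infty_iff_deriv.1 GG_contDiff).2
  have h1 : Continuous (deriv GG) := h1'.continuous
  have h2 : Continuous (deriv (deriv GG)) := (contDiff_infty_iff_deriv.1 h1').2.continuous
  unfold Bq uh
  fun_prop

end H30

open H30 in
theorem core_pos : ∃ κs > 0, ∀ κ, 0 < κ → κ ≤ κs → ∀ ξ τ : ℝ, ξ ^ 2 + τ ^ 2 ≤ 11 / 10 →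
    0 < Wq ξ τ + κ * Bq ξ τ := by
  set D : Set (ℝ × ℝ) := {p | p.1 ^ 2 + p.2 ^ 2 ≤ 11 / 10} with hD
  have hDc : IsCompact D := by
    apply Metric.isCompact_of_isClosed_isBounded
    · exact isClosed_le (by fun_prop) continuous_const
    · refine (Metric.isBounded_closedBall (x := (0 : ℝ × ℝ)) (r := 2)).subset ?_
      intro p hp
      simp only [hD, Set.mem_ofPred_eq] at hp
      rw [Metric.mem_closedBall, dist_zero_right, Prod.norm_def, max_le_iff, Real.norm_eq_abs,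
        Real.norm_eq_abs]
      constructor <;> apply abs_le_of_sq_le_sq _ (by norm_num) <;>
        nlinarith [sq_nonneg p.1, sq_nonneg p.2]
  have hZc : IsCompact (D ∩ {p | Bq p.1 p.2 ≤ 0}) :=
    hDc.inter_right (isClosed_le Bq_cont continuous_const)
  obtain ⟨M, hM⟩ : ∃ M, ∀ p ∈ D, |Bq p.1 p.2| ≤ M := by
    obtain ⟨M, hM⟩ := hDc.exists_bound_of_continuousOn Bq_cont.continuousOn
    exact ⟨M, fun p hp => hM p hp⟩
  have hWpos : ∀ p ∈ D ∩ {p | Bq p.1 p.2 ≤ 0}, 0 < Wq p.1 p.2 := by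
    rintro ⟨ξ, τ⟩ ⟨hp, hB⟩
    simp only [hD, Set.mem_ofPred_eq] at hp hB
    have h1 := Wq_ge ξ τ hp
    by_contra hcon
    have h2 : 2 * (3 * ξ ^ 2 - 1) ^ 2 + 8 * τ ^ 2 ≤ 0 := by
      simp only at hcon
      linarith
    have hτ : τ = 0 := by
      have : τ ^ 2 = 0 := by nlinarith [sq_nonneg τ, sq_nonneg (3 * ξ ^ 2 - 1)]
      exact pow_eq_zero_iff (two_ne_zero) |>.1 this
    have hξ : ξ ^ 2 = 1 / 3 := by
      have : (3 * ξ ^ 2 - 1) ^ 2 = 0 := by nlinarith [sq_nonneg τ, sq_nonneg (3 * ξ ^ 2 - 1)]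
      have := pow_eq_zero_iff (two_ne_zero) |>.1 this
      linarith
    subst hτ
    have hu : uh ξ 0 = 0 := by unfold uh; rw [hξ]; ring
    have hBq : Bq ξ 0 = -(48 * ξ ^ 2 * deriv GG (1 / 3)) := by
      unfold Bq
      rw [hu]
      have : ξ ^ 2 + 0 ^ 2 = (1 / 3 : ℝ) := by rw [hξ]; norm_num
      rw [this]
      ring
    rw [hBq, hξ] at hB
    have := deriv_GG_neg
    linarith
  have hM0 : 0 ≤ M := le_trans (abs_nonneg _) (hM (0, 0) (by simp [hD]; norm_num))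
  obtain ⟨w0, hw0, hw⟩ : ∃ w0 > 0, ∀ p ∈ D ∩ {p | Bq p.1 p.2 ≤ 0}, w0 ≤ Wq p.1 p.2 := by
    rcases (D ∩ {p | Bq p.1 p.2 ≤ 0}).eq_empty_or_nonempty with he | hne
    · exact ⟨1, one_pos, fun p hp => by rw [he] at hp; exact absurd hp (Set.notMem_empty p)⟩
    · obtain ⟨q, hq, hmin⟩ := hZc.exists_isMinOn hne Wq_cont.continuousOn
      exact ⟨Wq q.1 q.2, hWpos q hq, fun p hp => hmin hp⟩
  refine ⟨w0 / (2 * (M + 1)), by positivity, fun κ hκ hκs ξ τ h => ?_⟩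
  by_cases hB : Bq ξ τ ≤ 0
  · have h1 := hw (ξ, τ) ⟨h, hB⟩
    have h2 := hM (ξ, τ) h
    simp only at h1 h2
    have h3 : -M ≤ Bq ξ τ := (abs_le.1 h2).1
    have h4 : κ * (2 * (M + 1)) ≤ w0 := by
      rwa [le_div_iff₀ (by positivity)] at hκs
    nlinarith
  · push Not at hB
    have h1 := Wq_ge ξ τ h
    have h2 : 0 < κ * Bq ξ τ := mul_pos hκ hB
    nlinarith [sq_nonneg (3 * ξ ^ 2 - 1), sq_nonneg τ]

end Pool.Agent.Helper53.Engel
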