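import Pool.Agent.Helper53.Engel.Defs

/-!
# Task L: closed curves tangent to the line field are orbits
-/

set_option autoImplicit false

open Topology Real Filter MeasureTheory
open scoped ContDiff

noncomputable section

namespace Pool.Agent.Helper53.Engel

namespace H30

/-- the inner product of `ℝ⁴` -/
def ip (u v : V4) : ℝ := u.1 * v.1 + u.2.1 * v.2.1 + u.2.2.1 * v.2.2.1 + u.2.2.2 * v.2.2.2

lemma ip_self_pos {u : V4} (h : u ≠ 0) : 0 < ip u u := by
  obtain ⟨a, b, c, d⟩ := u
  have h0 : 0 ≤ ip (a, b, c, d) (a, b, c, d) := by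
    unfold ip
    nlinarith [mul_self_nonneg a, mul_self_nonneg b, mul_self_nonneg c, mul_self_nonneg d]
  rcases h0.lt_or_eq with h1 | h1
  · exact h1
  · exfalso
    apply h
    unfold ip at h1
    simp only at h1
    have ha : a = 0 := by
      have : a * a = 0 := by
        nlinarith [mul_self_nonneg a, mul_self_nonneg b, mul_self_nonneg c, mul_self_nonneg d]
      exact mul_self_eq_zero.1 this
    have hb : b = 0 := by
      have : b * b = 0 := by
        nlinarith [mul_self_nonneg a, mul_self_nonneg b, mul_self_nonneg c, mul_self_nonneg d]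
      exact mul_self_eq_zero.1 this
    have hc : c = 0 := by
      have : c * c = 0 := by
        nlinarith [mul_self_nonneg a, mul_self_nonneg b, mul_self_nonneg c, mul_self_nonneg d]
      exact mul_self_eq_zero.1 this
    have hd : d = 0 := by
      have : d * d = 0 := by
        nlinarith [mul_self_nonneg a, mul_self_nonneg b, mul_self_nonneg c, mul_self_nonneg d]
      exact mul_self_eq_zero.1 this
    subst ha hb hc hd
    rfl

lemma ip_smul (r : ℝ) (u v : V4) : ip (r • u) v = r * ip u v := by
  simp only [ip, Prod.smul_fst, Prod.smul_snd, smul_eq_mul]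
  ring

lemma ip_cont {f g : ℝ → V4} (hf : Continuous f) (hg : Continuous g) :
    Continuous (fun s => ip (f s) (g s)) := by
  unfold ip
  fun_prop

lemma orbit_of_pos (W : V4 → V4) (γ : ℝ → V4) (g : ℝ → ℝ) (hg : Continuous g) (T : ℝ) (hT : 0 < T)
    (hgT : Function.Periodic g T) (hpos : ∀ s, 0 < g s) (n : V4) (hn : n ∈ Lat)
    (hγ : ∀ s, HasDerivAt γ (g s • W (γ s)) s) (hc : ∀ s, γ (s + T) = γ s + n) :
    ∃ (c : ℝ → V4) (T' : ℝ) (n : V4), 0 < T' ∧ n ∈ Lat ∧ (∀ s, HasDerivAt c (W (c s)) s) ∧
      (∀ s, c (s + T') = c s + n) ∧ Set.range c = Set.range γ := by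
  set σ : ℝ → ℝ := fun s => ∫ x in (0 : ℝ)..s, g x with hσ
  have hint : ∀ a b, IntervalIntegrable g volume a b := fun a b => hg.intervalIntegrable a b
  have hσ' : ∀ s, HasDerivAt σ (g s) s := fun s =>
    intervalIntegral.integral_hasDerivAt_right (hint _ _) hg.stronglyMeasurable.stronglyMeasurableAtFilter
      hg.continuousAt
  have hσc : Continuous σ := continuous_iff_continuousAt.2 fun s => (hσ' s).continuousAt
  have hmono : StrictMono σ := strictMono_of_deriv_pos fun s => by
    rw [(hσ' s).deriv]
    exact hpos s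
  have htop : Tendsto σ atTop atTop :=
    hgT.tendsto_atTop_intervalIntegral_of_pos' (hint _ _) hpos hT
  have hbot : Tendsto σ atBot atBot :=
    hgT.tendsto_atBot_intervalIntegral_of_pos' (hint _ _) hpos hT
  have hsurj : Function.Surjective σ := hσc.surjective htop hbot
  let e : ℝ ≃o ℝ := hmono.orderIsoOfSurjective σ hsurj
  have he : ∀ s, e s = σ s := fun s => rfl
  have hστ : ∀ y, σ (e.symm y) = y := fun y => e.apply_symm_apply y
  have hτσ : ∀ s, e.symm (σ s) = s := fun s => e.symm_apply_apply s
  have hτ' : ∀ y, HasDerivAt e.symm (g (e.symm y))⁻¹ y := fun y =>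
    HasDerivAt.of_local_left_inverse e.symm.continuous.continuousAt (hσ' _) (hpos _).ne'
      (Eventually.of_forall hστ)
  have hadd : ∀ s, σ (s + T) = σ s + σ T := by
    intro s
    have h1 : σ (s + T) = σ s + ∫ x in s..s + T, g x :=
      (intervalIntegral.integral_add_adjacent_intervals (hint _ _) (hint _ _)).symm
    rw [h1, hgT.intervalIntegral_add_eq s 0, zero_add]
  have h0 : σ 0 = 0 := intervalIntegral.integral_same
  refine ⟨fun y => γ (e.symm y), σ T, n, ?_, hn, ?_, ?_, ?_⟩
  · rw [← h0]
    exact hmono hT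
  · intro y
    have h1 := (hγ (e.symm y)).scomp y (hτ' y)
    rw [smul_smul, inv_mul_cancel₀ (hpos _).ne', one_smul] at h1
    exact h1
  · intro y
    have h1 : e.symm (y + σ T) = e.symm y + T := by
      apply e.injective
      rw [e.apply_symm_apply, he, hadd, hστ]
    simp only
    rw [h1, hc]
  · exact Function.Surjective.range_comp e.symm.surjective γ

end H30

open H30 in
theorem exists_orbit_of_closedCurve (W : V4 → V4) (hW : Continuous W) (h0 : ∀ p, W p ≠ 0)
    (pW : ∀ p, ∀ n ∈ Lat, W (p + n) = W p) (γ : ℝ → V4) (T : ℝ)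
    (h : IsClosedCurve (fun p => Submodule.span ℝ {W p}) γ T) :
    ∃ (c : ℝ → V4) (T' : ℝ) (n : V4), 0 < T' ∧ n ∈ Lat ∧ (∀ s, HasDerivAt c (W (c s)) s) ∧
      (∀ s, c (s + T') = c s + n) ∧ Set.range c = Set.range γ := by
  obtain ⟨hT, hd, hcont, hreg, htan, n, hn, hc⟩ := h
  set g : ℝ → ℝ := fun s => ip (deriv γ s) (W (γ s)) / ip (W (γ s)) (W (γ s)) with hg
  have hWγ : Continuous (fun s => W (γ s)) := hW.comp hd.continuous
  have hgc : Continuous g :=
    (ip_cont hcont hWγ).div (ip_cont hWγ hWγ) fun s => (ip_self_pos (h0 _)).ne'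
  have hgs : ∀ s, deriv γ s = g s • W (γ s) := by
    intro s
    obtain ⟨r, hr⟩ := Submodule.mem_span_singleton.1 (htan s)
    have : g s = r := by
      simp only [hg]
      rw [← hr, ip_smul, mul_div_assoc, div_self (ip_self_pos (h0 _)).ne', mul_one]
    rw [this, hr]
  have hg0 : ∀ s, g s ≠ 0 := by
    intro s hs
    apply hreg s
    rw [hgs s, hs, zero_smul]
  have hγ : ∀ s, HasDerivAt γ (g s • W (γ s)) s := fun s => by
    rw [← hgs s]
    exact (hd s).hasDerivAt
  have hderT : ∀ s, deriv γ (s + T) = deriv γ s := by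
    intro s
    have h1 : deriv (fun x => γ (x + T)) s = deriv γ (s + T) := deriv_comp_add_const _ _ _
    rw [← h1]
    have h2 : (fun x => γ (x + T)) = fun x => γ x + n := funext hc
    rw [h2, deriv_add_const]
  have hgT : Function.Periodic g T := by
    intro s
    simp only [hg]
    rw [hderT, hc, pW _ n hn]
  rcases lt_or_gt_of_ne (hg0 0) with hneg | hpos
  · -- negative sign: reverse the curve
    have hall : ∀ s, g s < 0 := by
      intro s
      by_contra hcon
      push Not at hcon
      obtain ⟨t, ht⟩ := mem_range_of_exists_le_of_exists_ge hgc ⟨0, hneg.le⟩ ⟨s, hcon⟩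
      exact hg0 t ht
    have h1 := orbit_of_pos W (fun s => γ (-s)) (fun s => -g (-s)) (hgc.comp continuous_neg).neg T hT
      (by
        intro s
        simp only
        have := hgT (-(s + T))
        rw [show -(s + T) + T = -s by ring] at this
        rw [this])
      (fun s => by simpa using hall (-s)) (-n)
      (by
        obtain ⟨a, b, c, d, rfl⟩ := hn
        exact ⟨-a, -b, -c, -d, by push_cast; rfl⟩)
      (by
        intro s
        have h2 := (hγ (-s)).scomp s (hasDerivAt_neg s)
        simp only [smul_smul, neg_one_mul] at h2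
        exact h2)
      (by
        intro s
        have := hc (-(s + T))
        rw [show -(s + T) + T = -s by ring] at this
        rw [this]
        abel)
    obtain ⟨c, T', n', hT', hn', hc', hcc, hr⟩ := h1
    refine ⟨c, T', n', hT', hn', hc', hcc, ?_⟩
    rw [hr]
    exact Function.Surjective.range_comp (neg_surjective) γ
  · have hall : ∀ s, 0 < g s := by
      intro s
      by_contra hcon
      push Not at hcon
      obtain ⟨t, ht⟩ := mem_range_of_exists_le_of_exists_ge hgc ⟨s, hcon⟩ ⟨0, hpos.le⟩
      exact hg0 t ht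
    exact orbit_of_pos W γ g hgc T hT hgT hall n hn hγ hc

end Pool.Agent.Helper53.Engel
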